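import Mathlib

set_option autoImplicit false

namespace Pool.Agent.Results.MP_6677ae_co.BurnCounterexample

open Finset

variable {V : Type} [Fintype V] [DecidableEq V]

/-- One round of spread in the hypergraph with edge set `E` for the proportion `p`: the vertices on
fire are those of `F` together with all vertices of every edge `e` of which at least `⌈p |e|⌉`
vertices lie in `F`. -/
noncomputable def spread (E : Finset (Finset V)) (p : ℝ) (F : Finset V) : Finset V :=
  F ∪ (E.filter (fun e => ⌈p * (e.card : ℝ)⌉₊ ≤ (e ∩ F).card)).biUnion id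

/-- The set of burning vertices at the end of the last round of the round-based game. The list
holds the chosen vertices, the most recent choice first. -/
noncomputable def burnt (E : Finset (Finset V)) (p : ℝ) : List V → Finset V
  | [] => ∅
  | u :: us => insert u (spread E p (burnt E p us))

/-- The choices in the list (most recent first) are legal: each chosen vertex was not burning at
the end of the previous round. -/
def Legal (E : Finset (Finset V)) (p : ℝ) : List V → Prop
  | [] => True
  | u :: us => u ∉ burnt E p us ∧ Legal E p us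

/-- The round-based burning number `b_p(H)`. -/
noncomputable def burningNumber (E : Finset (Finset V)) (p : ℝ) : ℕ :=
  sInf {k | ∃ l : List V, l.length = k ∧ Legal E p l ∧ burnt E p l = univ}

/-- The lazy burning number `b_{L,p}(H)`. -/
noncomputable def lazyBurningNumber (E : Finset (Finset V)) (p : ℝ) : ℕ :=
  sInf {k | ∃ S : Finset V, S.card = k ∧ ∃ t : ℕ, (spread E p)^[t] S = univ}

/-- The example: vertex set `{0,1,2,3}`, edges `{0,1,2,3}` and `{0,1}`. -/
def E0 : Finset (Finset (Fin 4)) := {{0, 1, 2, 3}, {0, 1}}

/-- Computable version of the spread in `E0` with threshold `a` for the big edge and `1` for the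
small edge. -/
def sp (a : ℕ) (F : Finset (Fin 4)) : Finset (Fin 4) :=
  F ∪ ((if a ≤ (({0, 1, 2, 3} : Finset (Fin 4)) ∩ F).card then {0, 1, 2, 3} else ∅) ∪
    (if 1 ≤ (({0, 1} : Finset (Fin 4)) ∩ F).card then {0, 1} else ∅))

theorem spread_quarter (F : Finset (Fin 4)) : spread E0 (1/4) F = sp 1 F := by
  have h4 : ⌈(1/4 : ℝ) * ((({0, 1, 2, 3} : Finset (Fin 4)).card : ℕ) : ℝ)⌉₊ = 1 := by
    have : (({0, 1, 2, 3} : Finset (Fin 4)).card) = 4 := by decide
    rw [this]; norm_num
  have h2 : ⌈(1/4 : ℝ) * ((({0, 1} : Finset (Fin 4)).card : ℕ) : ℝ)⌉₊ = 1 := by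
    have : (({0, 1} : Finset (Fin 4)).card) = 2 := by decide
    rw [this, Nat.ceil_eq_iff (by norm_num)]; norm_num
  unfold spread sp E0
  congr 1
  rw [Finset.filter_insert, Finset.filter_singleton]
  simp only [h4, h2]
  split_ifs <;> simp

theorem spread_half (F : Finset (Fin 4)) : spread E0 (1/2) F = sp 2 F := by
  have h4 : ⌈(1/2 : ℝ) * ((({0, 1, 2, 3} : Finset (Fin 4)).card : ℕ) : ℝ)⌉₊ = 2 := by
    have : (({0, 1, 2, 3} : Finset (Fin 4)).card) = 4 := by decide
    rw [this, Nat.ceil_eq_iff (by norm_num)]; norm_num
  have h2 : ⌈(1/2 : ℝ) * ((({0, 1} : Finset (Fin 4)).card : ℕ) : ℝ)⌉₊ = 1 := by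
    have : (({0, 1} : Finset (Fin 4)).card) = 2 := by decide
    rw [this]; norm_num
  unfold spread sp E0
  congr 1
  rw [Finset.filter_insert, Finset.filter_singleton]
  simp only [h4, h2]
  split_ifs <;> simp

theorem lazy_one (p : ℝ) (h0 : spread E0 p ∅ = ∅) (t : ℕ) (ht : (spread E0 p)^[t] {0} = univ) :
    lazyBurningNumber E0 p = 1 := by
  unfold lazyBurningNumber
  apply le_antisymm
  · exact Nat.sInf_le ⟨{0}, by simp, t, ht⟩
  · by_contra hlt
    have hz : sInf {k | ∃ S : Finset (Fin 4), S.card = k ∧ ∃ t : ℕ, (spread E0 p)^[t] S = univ}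
        = 0 := by omega
    have hne : {k | ∃ S : Finset (Fin 4), S.card = k ∧ ∃ t : ℕ,
        (spread E0 p)^[t] S = univ}.Nonempty := ⟨1, {0}, by simp, t, ht⟩
    have hmem := Nat.sInf_mem hne
    rw [hz] at hmem
    obtain ⟨S, hS, t', ht'⟩ := hmem
    rw [Finset.card_eq_zero] at hS
    subst hS
    have hfix : ∀ n : ℕ, (spread E0 p)^[n] ∅ = ∅ := by
      intro n
      induction n with
      | zero => rfl
      | succ n ih => rw [Function.iterate_succ_apply', ih, h0]
    rw [hfix] at ht'
    exact absurd ht' (by decide)

/-- Equality of the lazy burning numbers for two proportions does not imply equality of the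
round-based burning numbers. -/
theorem result :
    ∃ (V : Type) (_ : Fintype V) (_ : DecidableEq V) (_ : Nonempty V) (E : Finset (Finset V))
      (p q : ℝ), 0 < p ∧ p < 1 ∧ 0 < q ∧ q < 1 ∧
        lazyBurningNumber E p = lazyBurningNumber E q ∧
        burningNumber E p ≠ burningNumber E q := by
  refine ⟨Fin 4, inferInstance, inferInstance, inferInstance, E0, 1/4, 1/2, by norm_num,
    by norm_num, by norm_num, by norm_num, ?_, ?_⟩
  · rw [lazy_one (1/4) (by rw [spread_quarter]; decide) 1 (by
      rw [Function.iterate_one, spread_quarter]; decide),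
      lazy_one (1/2) (by rw [spread_half]; decide) 2 (by
      rw [Function.iterate_succ_apply', Function.iterate_one, spread_half, spread_half]; decide)]
  · have h1 : burningNumber E0 (1/4) ≤ 2 := by
      refine Nat.sInf_le ⟨[2, 0], rfl, ?_, ?_⟩
      · simp only [Legal, burnt, spread_quarter]
        decide
      · simp only [burnt, spread_quarter]
        decide
    have h2 : 3 ≤ burningNumber E0 (1/2) := by
      by_contra hlt
      have hne : {k | ∃ l : List (Fin 4), l.length = k ∧ Legal E0 (1/2) l ∧
          burnt E0 (1/2) l = univ}.Nonempty := by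
        refine ⟨3, [3, 2, 0], rfl, ?_, ?_⟩
        · simp only [Legal, burnt, spread_half]
          decide
        · simp only [burnt, spread_half]
          decide
      have k1 : ∀ a : Fin 4, insert a (sp 2 ∅) ≠ univ := by decide
      have k2 : ∀ a b : Fin 4, insert a (sp 2 (insert b (sp 2 ∅))) ≠ univ := by decide
      obtain ⟨l, hl, -, hb⟩ := Nat.sInf_mem hne
      change l.length = burningNumber E0 (1/2) at hl
      match l, hl, hb with
      | [], _, hb => exact absurd hb (by simp only [burnt]; decide)
      | [a], _, hb =>
        simp only [burnt, spread_half] at hb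
        exact k1 a hb
      | [a, b], _, hb =>
        simp only [burnt, spread_half] at hb
        exact k2 a b hb
      | _ :: _ :: _ :: _, hl, _ =>
        simp only [List.length_cons] at hl
        omega
    omega

end Pool.Agent.Results.MP_6677ae_co.BurnCounterexample
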